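import Mathlib
import Pool.Agent.Lib_helper78.AMBDefs
import Pool.Agent.Lib_helper78.AMBClass
import Pool.Agent.Lib_helper78.AMTDefs
import Pool.Agent.Lib_helper78.AMTMain

open Pool.Agent.AMB (LPoly)
open Pool.Agent.AMT

namespace Pool.Agent.Results.MP_45a605_ag.TorusClassesHolomorphic

/-- The affirmative answer to Q1, in the first part: for every Laurent polynomial `f` in `d`
variables, the classes of the tori over the connected components of the complement of the amoeba
of `f` (one torus `Log⁻¹ (ρ C)` for each component `C`, the point `ρ C` of `C` being arbitrary) are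
linearly independent over `ℤ` in the `d`-th singular homology of the complement
`M_f = (ℂ^×)^d ∖ V_f`.

The second part is the same statement for every function `f` which is holomorphic on the tube
domain `Log⁻¹ U` over an open convex subset `U` of `ℝ^d`. -/
theorem result (d : ℕ) :
    (∀ (f : LPoly d) (ρ : Component Set.univ f.eval → Fin d → ℝ) (hρ : ∀ C, ρ C ∈ C.1),
      LinearIndependent ℤ fun C : Component Set.univ f.eval =>
        torusClass Set.univ f.eval (ρ C) (C.mem (hρ C))) ∧
    ∀ U : Set (Fin d → ℝ), IsOpen U → Convex ℝ U →
      ∀ f : (Fin d → ℂ) → ℂ, DifferentiableOn ℂ f (tube U) →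
      ∀ (ρ : Component U f → Fin d → ℝ) (hρ : ∀ C, ρ C ∈ C.1),
        LinearIndependent ℤ fun C : Component U f => torusClass U f (ρ C) (C.mem (hρ C)) := by
  refine ⟨fun f ρ hρ => ?_, fun U hU hc f hf ρ hρ => linearIndependent_torusClass hU hc f hf ρ hρ⟩
  exact linearIndependent_torusClass isOpen_univ convex_univ f.eval
    ((Pool.Agent.AMB.eval_continuousOn f).mono fun z hz => hz.1) ρ hρ

end Pool.Agent.Results.MP_45a605_ag.TorusClassesHolomorphic
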